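import Pool.Agent.H.MP_e90164_al.Rep

open Topology Pointwise

namespace Pool.Agent.Results.MP_e90164_al.Unbounded

/-- `H` is topologically isomorphic to a closed subgroup of some `GL n ℝ` (so it is a Lie group). -/
def LinearLie (H : Type) [Group H] [TopologicalSpace H] : Prop :=
  ∃ (n : ℕ) (φ : H →* GL (Fin n) ℝ), IsClosedEmbedding φ

/-- `H` is topologically isomorphic to the vector group `ℝ ^ d`. -/
def IsVector (H : Type) [Group H] [TopologicalSpace H] (d : ℕ) : Prop :=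
  Nonempty (Multiplicative (Fin d → ℝ) ≃ₜ* H)

/-- `B ≤ K` is the kernel of an open continuous epimorphism of `K` onto `SL 2 ℝ`. -/
def QuotSL {G : Type} [Group G] [TopologicalSpace G] (K B : Subgroup G) : Prop :=
  B ≤ K ∧ ∃ π : K →* Matrix.SpecialLinearGroup (Fin 2) ℝ,
    IsOpenQuotientMap π ∧ π.ker = B.subgroupOf K

theorem result (N : ℕ) :
    ∃ (G : Type) (_ : Group G) (_ : TopologicalSpace G) (_ : IsTopologicalGroup G) (_ : T2Space G)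
      (G₁ G₂ B₁ B₂ : Subgroup G),
      IsClosed (G₁ : Set G) ∧ IsClosed (G₂ : Set G) ∧ LinearLie G₁ ∧ LinearLie G₂ ∧
      (∃ d, IsVector B₁ d) ∧ (∃ d, IsVector B₂ d) ∧ QuotSL G₁ B₁ ∧ QuotSL G₂ B₂ ∧
      (B₁ : Set G) * (B₂ : Set G) ⊆ (G₁ : Set G) ∩ (G₂ : Set G) ∧
      (∀ H : Subgroup G, H ≤ B₁ ⊓ B₂ → (∀ g ∈ G₁ ⊔ G₂, ∀ x ∈ H, g * x * g⁻¹ ∈ H) → H = ⊥) ∧
      ∃ (S : Subgroup G) (d : ℕ), (S : Set G) = (B₁ : Set G) * (B₂ : Set G) ∧ IsVector S d ∧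
        N < d := by
  obtain ⟨d, d', hd, ρ, hρ, lam, e, ι, pr, h1, h2, h3, h4, h5⟩ :=
    Pool.Agent.H.MP_e90164_al.exists_rep N
  obtain ⟨G, iG, tG, tgG, t2G, G1, G2, B1, B2, c1, c2, l1, l2, q1, q2, v1, v2, b21, b11, b12, hn⟩ :=
    Pool.Agent.H.MP_e90164_al.main ρ hρ lam e ι pr h1 h2 h3 h4 h5
  have hB : (B1 : Set G) = (B1 : Set G) * (B2 : Set G) := by
    apply Set.Subset.antisymm
    · intro x hx
      exact ⟨x, hx, 1, B2.one_mem, mul_one x⟩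
    · rintro _ ⟨x, hx, y, hy, rfl⟩
      exact B1.mul_mem hx (b21 hy)
  refine ⟨G, iG, tG, tgG, t2G, G1, G2, B1, B2, c1, c2, l1, l2, ⟨d, v1⟩, ⟨d', v2⟩, ⟨b11, q1⟩,
    ⟨b21.trans b12, q2⟩, ?_, ?_, B1, d, hB, v1, hd⟩
  · rw [← hB]
    exact fun x hx => ⟨b11 hx, b12 hx⟩
  · intro H hH h
    exact hn H (hH.trans inf_le_right) fun g hg => h g (Subgroup.mem_sup_left hg)

end Pool.Agent.Results.MP_e90164_al.Unbounded
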